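import Pool.Agent.L7h65.FT.Laf0

set_option autoImplicit false

/-!
# Project FT, part LAF: the pointwise bound
-/

namespace Pool.Agent.L7h65.FT

open Finset Pool.Agent.L7h19.FT Pool.Agent.L7h19.IK
open Pool.Agent.L7h65.IK

variable {m : Fin 3 → ℕ} {E : Finset ℕ}

lemma cls_G (h : Ok m) (k : ℕ) (c : Fin 3) :
    ((KK jc (Mo m c) (Ms m E c)).card : ℝ) ^ k ≤ 2 ^ (k ^ 2) * (1 + FK true 0 k k m E c) := by
  have h1 := pow_card_le jc k (Ms_sqf h E c) (jc_pm h E c)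
  have h2 : ((KK jc (Mo m c) (Ms m E c)).card : ℝ) ^ k ≤
      2 ^ (k ^ 2) * (1 + ((Ind jc k (Mo m c) (Ms m E c)).card : ℝ)) := by exact_mod_cast h1
  rw [FK_true h, zero_mul, pow_zero, one_mul, mul_div_cancel_right₀ _ (by positivity)]
  exact h2

lemma cls_nG (h : Ok m) (k : ℕ) (c : Fin 3) :
    ((KK jc (Mo m c) (Ms m E c)).card : ℝ) ^ k ≤ (2 ^ (dl m E c).toNat) ^ k *
      (2 ^ (k ^ 2) * (1 + (FK false 0 k k m E c + FK true k 0 k m E c))) := by
  have n1 := FK_nonneg h E false 0 k k c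
  have n2 := FK_nonneg h E true k 0 k c
  have hpos : (0 : ℝ) < 2 ^ (k ^ 2) := by positivity
  rcases le_total (Mo m c).primeFactors.card (Ms m E c).primeFactors.card with hle | hle
  · have ht : (dl m E c).toNat = (Ms m E c).primeFactors.card - (Mo m c).primeFactors.card := by
      unfold dl
      omega
    have hd := double jc (Mo_sqf h c) (Ms_sqf h E c) (jc_pm h E c)
    have hd' : (KK jc' (Ms m E c) (Mo m c)).card * 2 ^ (Ms m E c).primeFactors.card =
        (KK jc (Mo m c) (Ms m E c)).card * 2 ^ (Mo m c).primeFactors.card := hd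
    have e3 : 2 ^ (Ms m E c).primeFactors.card = 2 ^ (dl m E c).toNat *
        2 ^ (Mo m c).primeFactors.card := by
      rw [← pow_add]; congr 1; omega
    rw [e3, ← mul_assoc] at hd'
    have e4 := Nat.eq_of_mul_eq_mul_right (by positivity) hd'
    have h1 := pow_card_le jc' k (Mo_sqf h c) (fun q hq p hp => jc_pm h E c p hp q hq)
    have h2 : ((KK jc' (Ms m E c) (Mo m c)).card : ℝ) ^ k ≤
      2 ^ (k ^ 2) * (1 + ((Ind jc' k (Ms m E c) (Mo m c)).card : ℝ)) := by exact_mod_cast h1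
    have h3 : ((Ind jc' k (Ms m E c) (Mo m c)).card : ℝ) ≤ FK false 0 k k m E c := by
      rw [FK_false h, zero_mul, pow_zero, one_mul, le_div_iff₀ (by positivity)]
      have : (2 : ℝ) ^ (k * (Mo m c).primeFactors.card) ≤ 2 ^ (k * (Ms m E c).primeFactors.card) :=
        pow_le_pow_right₀ (by norm_num) (Nat.mul_le_mul_left _ hle)
      exact mul_le_mul_of_nonneg_left this (by positivity)
    have h4 : ((KK jc (Mo m c) (Ms m E c)).card : ℝ) =
        ((KK jc' (Ms m E c) (Mo m c)).card : ℝ) * 2 ^ (dl m E c).toNat := by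
      exact_mod_cast e4.symm
    rw [h4, mul_pow, mul_comm]
    apply mul_le_mul_of_nonneg_left _ (by positivity)
    refine h2.trans (mul_le_mul_of_nonneg_left ?_ hpos.le)
    linarith
  · have ht : (dl m E c).toNat = 0 := by
      unfold dl
      omega
    rw [ht, pow_zero, one_pow, one_mul]
    have h1 := pow_card_le jc k (Ms_sqf h E c) (jc_pm h E c)
    have h2 : ((KK jc (Mo m c) (Ms m E c)).card : ℝ) ^ k ≤
      2 ^ (k ^ 2) * (1 + ((Ind jc k (Mo m c) (Ms m E c)).card : ℝ)) := by exact_mod_cast h1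
    have h3 : ((Ind jc k (Mo m c) (Ms m E c)).card : ℝ) ≤ FK true k 0 k m E c := by
      rw [FK_true h, zero_mul, pow_zero, mul_one, le_div_iff₀ (by positivity)]
      have : (2 : ℝ) ^ (k * (Ms m E c).primeFactors.card) ≤ 2 ^ (k * (Mo m c).primeFactors.card) :=
        pow_le_pow_right₀ (by norm_num) (Nat.mul_le_mul_left _ hle)
      exact mul_le_mul_of_nonneg_left this (by positivity)
    refine h2.trans (mul_le_mul_of_nonneg_left ?_ hpos.le)
    linarith

/-- the bound for one class -/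
lemma cls_all (h : Ok m) (G : Finset (Fin 3)) (k : ℕ) (c : Fin 3) :
    ((KK jc (Mo m c) (Ms m E c)).card : ℝ) ^ k ≤ (2 ^ (ex G m E)) ^ k *
      (2 ^ (k ^ 2) * (1 + (∑ c ∈ G, FK true 0 k k m E c +
        ∑ c ∈ univ.filter (fun c => c ∉ G), (FK false 0 k k m E c + FK true k 0 k m E c)))) := by
  have s1 : 0 ≤ ∑ c ∈ G, FK true 0 k k m E c := sum_nonneg fun c _ => FK_nonneg h E _ _ _ _ _
  have s2 : 0 ≤ ∑ c ∈ univ.filter (fun c => c ∉ G),
      (FK false 0 k k m E c + FK true k 0 k m E c) := sum_nonneg fun c _ =>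
        add_nonneg (FK_nonneg h E _ _ _ _ _) (FK_nonneg h E _ _ _ _ _)
  have hpos : (0 : ℝ) < 2 ^ (k ^ 2) := by positivity
  have hone : (1 : ℝ) ≤ (2 ^ (ex G m E)) ^ k := one_le_pow₀ (one_le_pow₀ (by norm_num))
  by_cases hc : c ∈ G
  · have h1 := cls_G (E := E) h k c
    have h2 : FK true 0 k k m E c ≤ ∑ c ∈ G, FK true 0 k k m E c :=
      single_le_sum (f := fun c => FK true 0 k k m E c) (fun c _ => FK_nonneg h E _ _ _ _ _) hc
    have h3 : (2 : ℝ) ^ (k ^ 2) * (1 + FK true 0 k k m E c) ≤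
        2 ^ (k ^ 2) * (1 + (∑ c ∈ G, FK true 0 k k m E c +
        ∑ c ∈ univ.filter (fun c => c ∉ G), (FK false 0 k k m E c + FK true k 0 k m E c))) :=
      mul_le_mul_of_nonneg_left (by linarith) hpos.le
    refine (h1.trans h3).trans ?_
    exact le_mul_of_one_le_left (by positivity) hone
  · have h1 := cls_nG (E := E) h k c
    have hmem : c ∈ univ.filter (fun c => c ∉ G) := mem_filter.2 ⟨mem_univ _, hc⟩
    have h2 : FK false 0 k k m E c + FK true k 0 k m E c ≤ ∑ c ∈ univ.filter (fun c => c ∉ G),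
        (FK false 0 k k m E c + FK true k 0 k m E c) :=
      single_le_sum (f := fun c => FK false 0 k k m E c + FK true k 0 k m E c)
        (fun c _ => add_nonneg (FK_nonneg h E _ _ _ _ _) (FK_nonneg h E _ _ _ _ _)) hmem
    have h3 : (dl m E c).toNat ≤ ex G m E :=
      le_sup (f := fun c => (dl m E c).toNat) hmem
    have h4 : ((2 : ℝ) ^ (dl m E c).toNat) ^ k ≤ (2 ^ (ex G m E)) ^ k :=
      pow_le_pow_left₀ (by positivity) (pow_le_pow_right₀ (by norm_num) h3) _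
    have n1 := FK_nonneg h E false 0 k k c
    have n2 := FK_nonneg h E true k 0 k c
    refine h1.trans (mul_le_mul h4 (mul_le_mul_of_nonneg_left (by linarith) hpos.le)
      (mul_nonneg hpos.le (by linarith)) (by positivity))

/-- the final inequality -/
lemma fin_ineq (k N x : ℕ) (T S1 S2 : ℝ) (hT : 0 ≤ T) (s1 : 0 ≤ S1) (s2 : 0 ≤ S2)
    (hh : (N : ℝ) ^ k ≤ 2 * T ∨ ∃ n : ℕ, N ≤ 2 ^ (k + 3) * n ∧
      (n : ℝ) ^ k ≤ (2 ^ x) ^ k * (2 ^ (k ^ 2) * (1 + (S1 + S2)))) :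
    ((N : ℝ) / 2 ^ x) ^ k ≤ 4 ^ ((k + 2) ^ 2) * (1 + T + S1 + S2) := by
  have hx1 : (1 : ℝ) ≤ (2 ^ x) ^ k := one_le_pow₀ (one_le_pow₀ (by norm_num))
  have h4 : (0 : ℝ) < 4 ^ ((k + 2) ^ 2) := by positivity
  have hR : 0 ≤ (4 : ℝ) ^ ((k + 2) ^ 2) * (1 + T + S1 + S2) := mul_nonneg h4.le (by linarith)
  rw [div_pow, div_le_iff₀ (by positivity)]
  rcases hh with h2 | ⟨n, h2, h5⟩
  · have h3 : (2 : ℝ) ≤ 4 ^ ((k + 2) ^ 2) := by
      calc (2 : ℝ) ≤ 4 ^ 1 := by norm_num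
        _ ≤ _ := pow_le_pow_right₀ (by norm_num) (Nat.one_le_pow _ _ (by omega))
    calc (N : ℝ) ^ k ≤ 2 * T := h2
      _ ≤ 4 ^ ((k + 2) ^ 2) * (1 + T + S1 + S2) :=
          mul_le_mul h3 (by linarith) hT h4.le
      _ ≤ _ := le_mul_of_one_le_right hR hx1
  · have h3 : (N : ℝ) ^ k ≤ (2 ^ (k + 3)) ^ k * (n : ℝ) ^ k := by
      rw [← mul_pow]
      exact pow_le_pow_left₀ (by positivity) (by exact_mod_cast h2) k
    have h6 : ((2 : ℝ) ^ (k + 3)) ^ k * 2 ^ (k ^ 2) ≤ 4 ^ ((k + 2) ^ 2) := by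
      rw [show (4 : ℝ) = 2 ^ 2 by norm_num, ← pow_mul, ← pow_add, ← pow_mul]
      apply pow_le_pow_right₀ (by norm_num)
      nlinarith
    calc (N : ℝ) ^ k ≤ (2 ^ (k + 3)) ^ k * (n : ℝ) ^ k := h3
      _ ≤ (2 ^ (k + 3)) ^ k * ((2 ^ x) ^ k * (2 ^ (k ^ 2) * (1 + (S1 + S2)))) :=
          mul_le_mul_of_nonneg_left h5 (by positivity)
      _ = ((2 ^ (k + 3)) ^ k * 2 ^ (k ^ 2)) * (1 + (S1 + S2)) * (2 ^ x) ^ k := by ring
      _ ≤ (4 ^ ((k + 2) ^ 2) * (1 + T + S1 + S2)) * (2 ^ x) ^ k :=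
          mul_le_mul_of_nonneg_right (mul_le_mul h6 (by linarith) (by linarith) h4.le)
            (by positivity)

/-- **LAF** -/
theorem s_LAF : S_LAF := by
  intro k m E G h
  have hT : 0 ≤ TK k m E := by
    rw [TK_eq h]
    positivity
  refine ⟨hT, fun τ a b c => FK_nonneg h E τ a b k c, ?_⟩
  unfold gF
  refine fin_ineq k (N0 m E) (ex G m E) _ _ _ hT (sum_nonneg fun c _ => FK_nonneg h E _ _ _ _ _)
    (sum_nonneg fun c _ => add_nonneg (FK_nonneg h E _ _ _ _ _) (FK_nonneg h E _ _ _ _ _)) ?_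
  rcases le_or_gt (2 ^ (k + 1) * ∑ c, (KK jc (Mo m c) (Ms m E c)).card) (N0 m E) with hN | hN
  · left
    have h1 := good m h E k hN
    rw [TK_eq h]
    exact_mod_cast h1
  · right
    obtain ⟨c, -, hc⟩ := exists_max_image (univ : Finset (Fin 3))
      (fun c => (KK jc (Mo m c) (Ms m E c)).card) ⟨0, mem_univ _⟩
    have h1 : ∑ c, (KK jc (Mo m c) (Ms m E c)).card ≤ 3 * (KK jc (Mo m c) (Ms m E c)).card := by
      refine (sum_le_card_nsmul _ _ _ hc).trans ?_
      rw [card_univ, Fintype.card_fin, smul_eq_mul]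
    refine ⟨(KK jc (Mo m c) (Ms m E c)).card, ?_, cls_all (E := E) h G k c⟩
    generalize (KK jc (Mo m c) (Ms m E c)).card = n at h1 ⊢
    generalize (∑ c, (KK jc (Mo m c) (Ms m E c)).card) = t at h1 hN
    have e1 : 2 ^ (k + 3) * n = 2 ^ (k + 1) * (4 * n) := by ring
    rw [e1]
    exact hN.le.trans (Nat.mul_le_mul_left _ (h1.trans (Nat.mul_le_mul_right _ (by norm_num))))

end Pool.Agent.L7h65.FT
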