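import Pool.Agent.L7h19.FT.Stm
import Pool.Agent.L7h65.IK.La

set_option autoImplicit false

/-!
# Project FT, part LAF: linear algebra over `𝔽₂` and the character sums, full 2-torsion
-/

namespace Pool.Agent.L7h65.FT

open Finset Pool.Agent.L7h19.FT Pool.Agent.L7h19.IK
open Pool.Agent.L7h65.IK

/-- the sum over the tuples with a property of the first tuple -/
lemma sum_gen (c : ℕ → ℕ → ℤ) (r : ℕ) {m n : ℕ} (hm : Squarefree m) (hn : n ≠ 0)
    (hc : ∀ p ∈ n.primeFactors, ∀ q ∈ m.primeFactors, c p q = 1 ∨ c p q = -1)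
    (P : (Fin r → ℕ) → Prop) [DecidablePred P] :
    ∑ e ∈ (Fintype.piFinset (fun _ : Fin r => n.divisors)).filter P,
      ∑ d ∈ Fintype.piFinset (fun _ : Fin r => m.divisors),
        ∏ i, ∏ p ∈ (e i).primeFactors, ∏ q ∈ (d i).primeFactors, (c p q : ℝ) =
      (((Fintype.piFinset (fun _ : Fin r => KK c m n)).filter P).card : ℝ) *
        2 ^ (r * m.primeFactors.card) := by
  have h1 : ∀ e ∈ (Fintype.piFinset (fun _ : Fin r => n.divisors)).filter P,
      ∑ d ∈ Fintype.piFinset (fun _ : Fin r => m.divisors),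
        ∏ i, ∏ p ∈ (e i).primeFactors, ∏ q ∈ (d i).primeFactors, (c p q : ℝ) =
      ∏ i : Fin r, if (∀ q ∈ m.primeFactors, ∏ p ∈ (e i).primeFactors, c p q = 1) then
        (2 : ℝ) ^ m.primeFactors.card else 0 := by
    intro e he
    rw [← Finset.prod_univ_sum (fun _ : Fin r => m.divisors)
      (fun i d => ∏ p ∈ (e i).primeFactors, ∏ q ∈ d.primeFactors, (c p q : ℝ))]
    refine prod_congr rfl fun i _ => ?_
    have hen : (e i).primeFactors ⊆ n.primeFactors :=
      Nat.primeFactors_mono (Nat.dvd_of_mem_divisors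
        (Fintype.mem_piFinset.1 (mem_filter.1 he).1 i)) hn
    have h3 : ∑ d ∈ m.divisors, ∏ p ∈ (e i).primeFactors, ∏ q ∈ d.primeFactors, c p q =
        if (∀ q ∈ m.primeFactors, ∏ p ∈ (e i).primeFactors, c p q = 1) then
          2 ^ m.primeFactors.card else 0 := by
      have h4 : ∀ d : ℕ, ∏ p ∈ (e i).primeFactors, ∏ q ∈ d.primeFactors, c p q =
          ∏ q ∈ d.primeFactors, ∏ p ∈ (e i).primeFactors, c p q := fun d => prod_comm
      simp_rw [h4]
      exact sumdiv hm (fun q => ∏ p ∈ (e i).primeFactors, c p q)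
        (fun q hq => prod_pm _ _ fun p hp => hc p (hen hp) q hq)
    have h5 := congrArg (Int.cast : ℤ → ℝ) h3
    push_cast at h5
    rw [h5]
  rw [sum_congr rfl h1]
  have h2 : ∀ e : Fin r → ℕ, (∏ i : Fin r, if (∀ q ∈ m.primeFactors,
      ∏ p ∈ (e i).primeFactors, c p q = 1) then (2 : ℝ) ^ m.primeFactors.card else 0) =
      if (∀ i, ∀ q ∈ m.primeFactors, ∏ p ∈ (e i).primeFactors, c p q = 1) then
        (2 : ℝ) ^ (r * m.primeFactors.card) else 0 := by
    intro e
    split_ifs with h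
    · rw [prod_congr rfl (fun i _ => if_pos (h i)), prod_const, card_univ, Fintype.card_fin,
        ← pow_mul, mul_comm]
    · push Not at h
      obtain ⟨i, q, hq, hi⟩ := h
      exact prod_eq_zero (mem_univ i) (if_neg fun h' => hi (h' q hq))
  rw [sum_congr rfl (fun e _ => h2 e), ← sum_filter, sum_const, nsmul_eq_mul]
  congr 2
  unfold KK
  congr 1
  ext e
  simp only [mem_filter, Fintype.mem_piFinset]
  constructor
  · rintro ⟨⟨h3, h4⟩, h5⟩
    exact ⟨fun i => ⟨h3 i, h5 i⟩, h4⟩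
  · rintro ⟨h3, h4⟩
    exact ⟨⟨fun i => (h3 i).1, h4⟩, fun i => (h3 i).2⟩

section fields

variable {m : Fin 3 → ℕ} {E : Finset ℕ}

lemma cop (h : Ok m) {c e : Fin 3} (hce : c ≠ e) : (m c).Coprime (m e) := by
  have h1 : m c * m e ∣ Mt m := by
    unfold Mt
    rw [← prod_pair hce]
    exact prod_dvd_prod_of_subset _ _ _ (subset_univ _)
  exact ((Nat.squarefree_mul_iff).1 (h.2.squarefree_of_dvd h1)).1

lemma dvd_Mt (m : Fin 3 → ℕ) (c : Fin 3) : m c ∣ Mt m := dvd_prod_of_mem _ (mem_univ c)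

lemma Mt_ne (h : Ok m) : Mt m ≠ 0 := h.2.ne_zero

lemma m_ne (h : Ok m) (c : Fin 3) : m c ≠ 0 := fun h0 => Mt_ne h (by
  have := dvd_Mt m c
  rw [h0] at this
  exact zero_dvd_iff.1 this)

lemma sqf (h : Ok m) (c : Fin 3) : Squarefree (m c) := h.2.squarefree_of_dvd (dvd_Mt m c)

lemma cls_uniq (h : Ok m) {p : ℕ} (hp : p.Prime) {c e : Fin 3} (h1 : p ∣ m c) (h2 : p ∣ m e) :
    c = e := by
  by_contra hne
  exact Nat.not_coprime_of_dvd_of_dvd hp.one_lt h1 h2 (cop h hne)

lemma Ms_pf (m : Fin 3 → ℕ) (E : Finset ℕ) (c : Fin 3) :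
    (Ms m E c).primeFactors = (m c).primeFactors.filter (fun p => p ∉ E) := by
  unfold Ms
  exact Nat.primeFactors_prod fun p hp => Nat.prime_of_mem_primeFactors (mem_filter.1 hp).1

lemma Ms_dvd (h : Ok m) (E : Finset ℕ) (c : Fin 3) : Ms m E c ∣ m c := by
  have h1 : Ms m E c ∣ ∏ p ∈ (m c).primeFactors, p := prod_dvd_prod_of_subset _ _ _ (filter_subset _ _)
  rwa [Nat.prod_primeFactors_of_squarefree (sqf h c)] at h1

lemma Ms_sqf (h : Ok m) (E : Finset ℕ) (c : Fin 3) : Squarefree (Ms m E c) :=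
  (sqf h c).squarefree_of_dvd (Ms_dvd h E c)

lemma Mo_sqf (h : Ok m) (c : Fin 3) : Squarefree (Mo m c) :=
  h.2.squarefree_of_dvd (prod_dvd_prod_of_subset _ _ _ (filter_subset _ _))

lemma mem_Mo {c : Fin 3} {q : ℕ} (hq : q ∈ (Mo m c).primeFactors) : ∃ e, e ≠ c ∧ q ∣ m e := by
  have hp := Nat.prime_of_mem_primeFactors hq
  have hd := Nat.dvd_of_mem_primeFactors hq
  unfold Mo at hd
  obtain ⟨e, he, hqe⟩ := (hp.prime.dvd_finsetProd_iff _).1 hd
  exact ⟨e, (mem_filter.1 he).2, hqe⟩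

lemma jc_pm (h : Ok m) (E : Finset ℕ) (c : Fin 3) : ∀ p ∈ (Ms m E c).primeFactors,
    ∀ q ∈ (Mo m c).primeFactors, jacobiSym (p : ℤ) q = 1 ∨ jacobiSym (p : ℤ) q = -1 := by
  intro p hp q hq
  have hp' := Nat.prime_of_mem_primeFactors hp
  have hq' := Nat.prime_of_mem_primeFactors hq
  refine jac_pm hq' hp' fun hpq => ?_
  obtain ⟨e, he, hqe⟩ := mem_Mo hq
  have h1 : p ∣ m c := (Nat.dvd_of_mem_primeFactors hp).trans (Ms_dvd h E c)
  rw [hpq] at h1
  exact he (cls_uniq h hq' hqe h1)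

/-- the symbols, the divisor first -/
def cK (m : Fin 3 → ℕ) (E : Finset ℕ) (q p : ℕ) : ℤ := sy3 m E p q

lemma cK_pm (m : Fin 3 → ℕ) (E : Finset ℕ) {a b : ℕ} : ∀ q ∈ a.primeFactors, ∀ p ∈ b.primeFactors,
    cK m E q p = 1 ∨ cK m E q p = -1 := by
  intro q hq p hp
  unfold cK sy3
  split_ifs with h1 h2 h3
  · exact Or.inr rfl
  · exact Or.inl rfl
  · exact Or.inl rfl
  · exact jac_pm (Nat.prime_of_mem_primeFactors hp) (Nat.prime_of_mem_primeFactors hq) h1

lemma N0_eq (m : Fin 3 → ℕ) (E : Finset ℕ) : N0 m E = (KK (cK m E) (Mt m) (Mt m)).card := rfl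

lemma TK_eq (h : Ok m) (E : Finset ℕ) (k : ℕ) : TK k m E =
    (((Fintype.piFinset (fun _ : Fin k => KK (cK m E) (Mt m) (Mt m))).filter (Cd k m)).card : ℝ) := by
  have h1 := sum_gen (cK m E) k h.2 (Mt_ne h) (cK_pm m E) (Cd k m)
  unfold TK
  rw [div_eq_iff (by positivity), ← h1]
  refine sum_congr rfl fun d _ => sum_congr rfl fun e _ => prod_congr rfl fun i _ => ?_
  rw [prod_comm]
  rfl

/-- the symbol `(p / q)` -/
def jc (p q : ℕ) : ℤ := jacobiSym (p : ℤ) q

/-- the symbol `(p / q)`, `q` first -/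
def jc' (q p : ℕ) : ℤ := jacobiSym (p : ℤ) q

lemma FK_true (h : Ok m) (E : Finset ℕ) (a b r : ℕ) (c : Fin 3) : FK true a b r m E c =
    ((Ind jc r (Mo m c) (Ms m E c)).card : ℝ) * 2 ^ (r * (Mo m c).primeFactors.card) /
      (2 ^ (a * (Ms m E c).primeFactors.card) * 2 ^ (b * (Mo m c).primeFactors.card)) := by
  have h1 := sum_gen jc r (Mo_sqf h c) (Ms_sqf h E c).ne_zero (jc_pm h E c) (Idp r (Ms m E c))
  unfold FK Ind
  congr 1
  rw [← h1, sum_filter]
  refine sum_congr rfl fun d _ => ?_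
  by_cases hd : Idp r (Ms m E c) d
  · rw [if_pos hd]
    refine sum_congr rfl fun e _ => ?_
    rw [if_pos (by rw [if_pos rfl]; exact hd)]
    rfl
  · rw [if_neg hd]
    refine sum_eq_zero fun e _ => ?_
    rw [if_neg (by rw [if_pos rfl]; exact hd)]

lemma FK_false (h : Ok m) (E : Finset ℕ) (a b r : ℕ) (c : Fin 3) : FK false a b r m E c =
    ((Ind jc' r (Ms m E c) (Mo m c)).card : ℝ) * 2 ^ (r * (Ms m E c).primeFactors.card) /
      (2 ^ (a * (Ms m E c).primeFactors.card) * 2 ^ (b * (Mo m c).primeFactors.card)) := by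
  have h1 := sum_gen jc' r (Ms_sqf h E c) (Mo_sqf h c).ne_zero
    (fun q hq p hp => jc_pm h E c p hp q hq) (Idp r (Mo m c))
  unfold FK Ind
  congr 1
  rw [← h1, sum_filter, sum_comm]
  refine sum_congr rfl fun e _ => ?_
  by_cases he : Idp r (Mo m c) e
  · rw [if_pos he]
    refine sum_congr rfl fun d _ => ?_
    rw [if_pos (by rw [if_neg (by decide)]; exact he)]
    refine prod_congr rfl fun i _ => ?_
    rw [prod_comm]
    rfl
  · rw [if_neg he]
    refine sum_eq_zero fun d _ => ?_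
    rw [if_neg (by rw [if_neg (by decide)]; exact he)]

lemma FK_nonneg (h : Ok m) (E : Finset ℕ) (τ : Bool) (a b r : ℕ) (c : Fin 3) :
    0 ≤ FK τ a b r m E c := by
  cases τ
  · rw [FK_false h]; positivity
  · rw [FK_true h]; positivity

/-- an element of the space with support in the class `c` -/
lemma mem_Kc (h : Ok m) {c : Fin 3} {d : ℕ} (hd : d ∈ KK (cK m E) (Mt m) (Mt m))
    (hdc : ∀ p, p.Prime → p ∣ d → p ∣ m c) : d ∈ KK jc (Mo m c) (Ms m E c) := by
  unfold KK at hd ⊢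
  rw [mem_filter, Nat.mem_divisors] at hd ⊢
  obtain ⟨⟨hdM, -⟩, hd2⟩ := hd
  have hd0 : d ≠ 0 := fun h0 => Mt_ne h (by rw [h0] at hdM; exact zero_dvd_iff.1 hdM)
  have hdsq : Squarefree d := h.2.squarefree_of_dvd hdM
  have hE : ∀ q ∈ d.primeFactors, q ∉ E := by
    intro q hq hqE
    have hqp := Nat.prime_of_mem_primeFactors hq
    have hqd := Nat.dvd_of_mem_primeFactors hq
    have h1 := hd2 q (Nat.primeFactors_mono hdM (Mt_ne h) hq)
    rw [prod_eq_single q] at h1
    · unfold cK sy3 at h1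
      rw [if_pos rfl, if_pos hqE] at h1
      exact absurd h1 (by norm_num)
    · intro q' hq' hne
      unfold cK sy3
      rw [if_neg hne, if_pos ⟨c, hdc q hqp hqd, hdc q' (Nat.prime_of_mem_primeFactors hq')
        (Nat.dvd_of_mem_primeFactors hq')⟩]
    · intro hn
      exact absurd hq hn
  refine ⟨⟨?_, (Ms_sqf h E c).ne_zero⟩, ?_⟩
  · rw [← Nat.prod_primeFactors_of_squarefree hdsq]
    unfold Ms
    apply prod_dvd_prod_of_subset
    intro q hq
    rw [mem_filter, Nat.mem_primeFactors]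
    exact ⟨⟨Nat.prime_of_mem_primeFactors hq, hdc q (Nat.prime_of_mem_primeFactors hq)
      (Nat.dvd_of_mem_primeFactors hq), m_ne h c⟩, hE q hq⟩
  · intro p hp
    have hpp := Nat.prime_of_mem_primeFactors hp
    obtain ⟨e, he, hpe⟩ := mem_Mo hp
    have h1 := hd2 p (Nat.mem_primeFactors.2 ⟨hpp, hpe.trans (dvd_Mt m e), Mt_ne h⟩)
    rw [← h1]
    refine prod_congr rfl fun q hq => ?_
    have hqp := Nat.prime_of_mem_primeFactors hq
    have hqc := hdc q hqp (Nat.dvd_of_mem_primeFactors hq)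
    unfold jc cK sy3
    rw [if_neg, if_neg]
    · rintro ⟨x, hx1, hx2⟩
      exact he ((cls_uniq h hpp hpe hx1).trans (cls_uniq h hqp hx2 hqc))
    · intro hqe
      rw [hqe] at hqc
      exact he (cls_uniq h hpp hpe hqc)

end fields

/-- the union bound -/
lemma union_bound {V : Type} [AddCommGroup V] [Module (ZMod 2) V] [Fintype V] [DecidableEq V]
    (k : ℕ) (U : Finset V) :
    ((univ : Finset (Fin k → V)).filter
      (fun v => ∃ y : Fin k → ZMod 2, y ≠ 0 ∧ ∑ i, y i • v i ∈ U)).card ≤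
      2 ^ k * (U.card * Fintype.card V ^ (k - 1)) := by
  classical
  have h1 : ∀ y : Fin k → ZMod 2, y ≠ 0 →
      ((univ : Finset (Fin k → V)).filter (fun v => ∑ i, y i • v i ∈ U)).card ≤
        U.card * Fintype.card V ^ (k - 1) := by
    intro y hy
    obtain ⟨i, hi⟩ : ∃ i, y i ≠ 0 := Function.ne_iff.1 hy
    have h2 : ((univ : Finset (Fin k → V)).filter (fun v => ∑ i, y i • v i ∈ U)).card ≤
        (U ×ˢ (univ : Finset ({j : Fin k // j ≠ i} → V))).card := by
      apply Finset.card_le_card_of_injOn (fun v => (∑ i, y i • v i, fun j => v j.1))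
      · intro v hv
        rw [mem_coe, mem_filter] at hv
        rw [mem_coe, mem_product]
        exact ⟨hv.2, mem_univ _⟩
      · intro v _ w _ hvw
        have e1 : ∑ j, y j • v j = ∑ j, y j • w j := congrArg Prod.fst hvw
        have e2 : ∀ j, j ≠ i → v j = w j := fun j hj =>
          congrFun (congrArg Prod.snd hvw) ⟨j, hj⟩
        funext j
        by_cases hj : j = i
        · rw [hj]
          rw [← add_sum_erase _ _ (mem_univ i), ← add_sum_erase _ (fun j => y j • w j) (mem_univ i),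
            sum_congr rfl (fun j hj => by rw [e2 j (ne_of_mem_erase hj)])] at e1
          have e3 := add_right_cancel e1
          have e4 : ∀ t : ZMod 2, t ≠ 0 → t = 1 := by decide
          rw [e4 _ hi, one_smul, one_smul] at e3
          exact e3
        · exact e2 j hj
    rw [card_product, card_univ, Fintype.card_fun] at h2
    have h3 : Fintype.card {j : Fin k // j ≠ i} = k - 1 := by
      rw [Fintype.card_subtype_compl, Fintype.card_fin]
      simp
    rwa [h3] at h2
  have h2 : ((univ : Finset (Fin k → V)).filter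
      (fun v => ∃ y : Fin k → ZMod 2, y ≠ 0 ∧ ∑ i, y i • v i ∈ U)) ⊆
      ((univ : Finset (Fin k → ZMod 2)).filter (fun y => y ≠ 0)).biUnion (fun y =>
        (univ : Finset (Fin k → V)).filter (fun v => ∑ i, y i • v i ∈ U)) := by
    intro v hv
    rw [mem_filter] at hv
    obtain ⟨-, y, hy, hv⟩ := hv
    rw [mem_biUnion]
    exact ⟨y, mem_filter.2 ⟨mem_univ _, hy⟩, mem_filter.2 ⟨mem_univ _, hv⟩⟩
  refine (card_le_card h2).trans ((card_biUnion_le_card_mul _ _ _
    (fun y hy => h1 y (mem_filter.1 hy).2)).trans (Nat.mul_le_mul_right _ ?_))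
  refine (card_filter_le _ _).trans (le_of_eq ?_)
  rw [card_univ, Fintype.card_fun, Fintype.card_fin, ZMod.card]

/-- most tuples have the property -/
lemma good (m : Fin 3 → ℕ) (h : Ok m) (E : Finset ℕ) (k : ℕ)
    (hN : 2 ^ (k + 1) * ∑ c, (KK jc (Mo m c) (Ms m E c)).card ≤ N0 m E) :
    N0 m E ^ k ≤
      2 * ((Fintype.piFinset (fun _ : Fin k => KK (cK m E) (Mt m) (Mt m))).filter (Cd k m)).card := by
  classical
  rw [N0_eq] at hN ⊢
  set c' := cK m E with hc'
  set M := Mt m with hM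
  have hpm : ∀ q ∈ M.primeFactors, ∀ p ∈ M.primeFactors, c' q p = 1 ∨ c' q p = -1 := cK_pm m E
  set V := ↥(WW c' M M) with hV
  have : Fintype V := Fintype.ofFinite _
  set φ := eqv c' h.2 hpm with hφ
  have hcard : Fintype.card V = (KK c' M M).card := by
    rw [← Fintype.card_coe, Fintype.card_congr φ]
  have hvec : ∀ (v : V) (p : ↥M.primeFactors), v.1 p = if (p : ℕ) ∣ ((φ.symm v : ↥(KK c' M M)) : ℕ)
      then 1 else 0 := by
    intro v p
    have h1 : φ (φ.symm v) = v := φ.apply_symm_apply v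
    have h2 := congrArg (fun w : V => w.1 p) h1
    rw [← h2]
    rfl
  set U : Finset V := univ.filter (fun v => ∃ c, ∀ p : ↥M.primeFactors, v.1 p ≠ 0 → (p : ℕ) ∣ m c)
    with hU
  have hUc : U.card ≤ ∑ c, (KK jc (Mo m c) (Ms m E c)).card := by
    have h1 : U ⊆ univ.biUnion (fun c : Fin 3 => (univ : Finset V).filter
        (fun v => ∀ p : ↥M.primeFactors, v.1 p ≠ 0 → (p : ℕ) ∣ m c)) := by
      intro v hv
      rw [hU, mem_filter] at hv
      obtain ⟨-, c, hv⟩ := hv
      rw [mem_biUnion]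
      exact ⟨c, mem_univ _, mem_filter.2 ⟨mem_univ _, hv⟩⟩
    refine (card_le_card h1).trans (card_biUnion_le.trans (sum_le_sum fun c _ => ?_))
    apply Finset.card_le_card_of_injOn (fun v => ((φ.symm v : ↥(KK c' M M)) : ℕ))
    · intro v hv
      rw [mem_coe, mem_filter] at hv
      rw [mem_coe]
      refine mem_Kc h (φ.symm v).2 fun p hp hpd => ?_
      have hpM : p ∈ M.primeFactors := Nat.mem_primeFactors.2 ⟨hp, hpd.trans
        (Nat.dvd_of_mem_divisors (mem_filter.1 (φ.symm v).2).1), Mt_ne h⟩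
      refine hv.2 ⟨p, hpM⟩ ?_
      rw [hvec, if_pos hpd]
      exact one_ne_zero
    · intro v _ w _ hvw
      exact φ.symm.injective (Subtype.ext hvw)
  have hbad := union_bound k U
  have hgood : ((univ : Finset (Fin k → V)).filter
      (fun v => ¬ ∃ y : Fin k → ZMod 2, y ≠ 0 ∧ ∑ i, y i • v i ∈ U)).card ≤
      ((Fintype.piFinset (fun _ : Fin k => KK c' M M)).filter (Cd k m)).card := by
    apply Finset.card_le_card_of_injOn (fun v i => ((φ.symm (v i) : ↥(KK c' M M)) : ℕ))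
    · intro v hv
      rw [mem_coe, mem_filter] at hv
      rw [mem_coe, mem_filter, Fintype.mem_piFinset]
      refine ⟨fun i => (φ.symm (v i)).2, fun y hy => ?_⟩
      have h1 : ∑ i, y i • v i ∉ U := fun h2 => hv.2 ⟨y, hy, h2⟩
      have h3 : ∀ c, ∃ p : ↥M.primeFactors, (∑ i, y i • v i : V).1 p ≠ 0 ∧ ¬ (p : ℕ) ∣ m c := by
        intro c
        by_contra hcon
        push Not at hcon
        exact h1 (by
          rw [hU, mem_filter]
          exact ⟨mem_univ _, c, hcon⟩)
      have h4 : ∀ p : ↥M.primeFactors, (∑ i, y i • v i : V).1 p =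
          ∑ i, y i * (if (p : ℕ) ∣ ((φ.symm (v i) : ↥(KK c' M M)) : ℕ) then 1 else 0) := by
        intro p
        rw [Submodule.coe_sum, Finset.sum_apply]
        refine sum_congr rfl fun i _ => ?_
        rw [← hvec]
        rfl
      have h5 : ∀ p : ↥M.primeFactors, ∃ c, (p : ℕ) ∈ (m c).primeFactors := by
        intro p
        have hp := Nat.prime_of_mem_primeFactors p.2
        have hd := Nat.dvd_of_mem_primeFactors p.2
        obtain ⟨c, -, hc⟩ := (hp.prime.dvd_finsetProd_iff _).1 hd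
        exact ⟨c, Nat.mem_primeFactors.2 ⟨hp, hc, m_ne h c⟩⟩
      obtain ⟨p, hp, -⟩ := h3 0
      obtain ⟨c1, hc1⟩ := h5 p
      obtain ⟨p', hp', hn⟩ := h3 c1
      obtain ⟨c2, hc2⟩ := h5 p'
      refine ⟨c1, c2, ?_, ⟨p, hc1, ?_⟩, ⟨p', hc2, ?_⟩⟩
      · intro he
        rw [he] at hn
        exact hn (Nat.dvd_of_mem_primeFactors hc2)
      · rw [h4] at hp
        exact hp
      · rw [h4] at hp'
        exact hp'
    · intro v _ w _ hvw
      funext i
      exact φ.symm.injective (Subtype.ext (congrFun hvw i))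
  have hsplit := card_filter_add_card_filter_not (s := (univ : Finset (Fin k → V)))
    (fun v => ∃ y : Fin k → ZMod 2, y ≠ 0 ∧ ∑ i, y i • v i ∈ U)
  rw [card_univ, Fintype.card_fun, Fintype.card_fin, hcard] at hsplit
  rw [hcard] at hbad
  set N := (KK c' M M).card with hNd
  rcases Nat.eq_zero_or_pos k with hk | hk
  · subst hk
    have h0 : ((univ : Finset (Fin 0 → V)).filter
      (fun v => ∃ y : Fin 0 → ZMod 2, y ≠ 0 ∧ ∑ i, y i • v i ∈ U)).card = 0 := by
      rw [card_eq_zero, filter_eq_empty_iff]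
      rintro v - ⟨y, hy, -⟩
      exact hy (Subsingleton.elim _ _)
    omega
  · have h1 : 2 * (2 ^ k * (U.card * N ^ (k - 1))) ≤ N ^ k := by
      calc 2 * (2 ^ k * (U.card * N ^ (k - 1))) = (2 ^ (k + 1) * U.card) * N ^ (k - 1) := by ring
        _ ≤ N * N ^ (k - 1) := Nat.mul_le_mul_right _
            ((Nat.mul_le_mul_left _ hUc).trans hN)
        _ = N ^ k := by
            rw [← pow_succ']
            congr 1
            omega
    omega

end Pool.Agent.L7h65.FT
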